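import Pool.Agent.KS6_69.SQ.Main

/-!
# Square in square fails at successor cardinals, with as many colours as there could be

Let `μ` be an infinite cardinal with `2 ^ μ = μ⁺` and let `κ = μ⁺`. Some notion of forcing preserves
all cardinals and `κ ^ (< κ) = κ`, and adds a function `c` from `κ⁺ × κ⁺` to `κ` such that
for every `B ⊆ κ⁺` of size `μ` and every colour `γ < κ` there are at most `μ` ordinals `a < min B`
without a `b ∈ B` with `c (a, b) = c (b, a) = γ`. Hence `c` takes all `κ` values on every product `A × B` of
sets of order type `κ + μ`, and `sis(κ⁺, κ + μ, 3)`, even `sis(κ⁺, κ + μ, 2)`, fails.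

The sentences of the forcing language are those of `Pool.Agent.KS6_69.SQ.Forcing` and
`Pool.Agent.KS6_69.SQ.Defs`.
-/

set_option autoImplicit false

namespace Pool.Agent.Results.MP_c6cf52_lc.KappaColours

open Cardinal Pool.Agent.KS6_69.SQ.Forcing Pool.Agent.KS6_69.SQ.Defs Pool.Agent.KS6_69.SQ.Main

/-- Let `2 ^ μ = μ⁺` and `κ = μ⁺`. There is a notion of forcing all of whose conditions force that
(1) the cardinals of the ground model are cardinals, (2) `κ ^ ν ≤ κ` for all `ν < κ`, (3) there is a
colouring of `κ⁺ × κ⁺` with `κ` colours, such that for every `B ⊆ κ⁺` of size `μ` and every colour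
all but at most `μ` elements below `B` are joined to `B` by that colour, on both sides, (4) there is
a colouring with `κ` colours which takes all values on all products of two sets of order type
`κ + μ`, (5) `sis(κ⁺, κ + μ, D)` fails for all sets `D` of at least two and at most `κ` colours,
(6) in particular for three colours. -/
theorem result (μ : Cardinal.{0}) (h0 : ℵ₀ ≤ μ) (h : 2 ^ μ = Order.succ μ) :
    ∃ (P : Type) (_ : Preorder P), Nonempty P ∧ ∀ p : P,
      p ∈ CardinalsPreserved.{0, 0} P ∧
      p ∈ WeakPower P (Order.succ μ) ∧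
      p ∈ AlmostAllRows P (Order.succ (Order.succ μ)).ord.ToType μ.ord.ToType
        (Order.succ μ).ord.ToType ∧
      p ∈ AllColoursOnProducts P (Order.succ (Order.succ μ)).ord.ToType
        ((Order.succ μ).ord + μ.ord).ToType (Order.succ μ).ord.ToType ∧
      (∀ D : Type, Nontrivial D → #D ≤ Order.succ μ →
        p ∈ fnot (Sis P (Order.succ (Order.succ μ)).ord.ToType
          ((Order.succ μ).ord + μ.ord).ToType D)) ∧
      p ∈ fnot (Sis P (Order.succ (Order.succ μ)).ord.ToType
        ((Order.succ μ).ord + μ.ord).ToType (Fin 3)) := by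
  obtain ⟨P, inst, hne, hP⟩ := main h0 h
  refine ⟨P, inst, hne, fun p => ?_⟩
  obtain ⟨h1, h2, h3, h4⟩ := hP p
  have hs : ∀ D : Type, Nontrivial D → #D ≤ Order.succ μ →
      p ∈ fnot (Sis P (Order.succ (Order.succ μ)).ord.ToType
        ((Order.succ μ).ord + μ.ord).ToType D) := by
    intro D hD hc
    have h5 : #D ≤ #((Order.succ μ).ord.ToType) := by simpa using hc
    obtain ⟨j⟩ := h5
    exact not_sis (allColours_map (Function.invFun j) (Function.invFun_surjective j.injective) h4)
  refine ⟨h1, h2, h3, h4, hs, hs _ inferInstance ?_⟩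
  rw [mk_fin]
  exact (natCast_lt_aleph0 (n := 3)).le.trans (h0.trans (Order.le_succ μ))

end Pool.Agent.Results.MP_c6cf52_lc.KappaColours
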